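import Pool.Agent.H92.RR.Targets

/-! Row RPRS of board rr_modules (MP_34b97f_an). -/

open MeasureTheory ProbabilityTheory Filter Topology Finset
open scoped ENNReal

namespace Pool.Agent.H23.RR

open Pool.Agent.H89.MT Pool.Agent.H92.RR

theorem prs_sum (f : ℕ → ℝ) (C : ℝ) (hf : ∀ n, |f n| ≤ C) (N : ℕ) :
    |∑ n ∈ Icc 1 (N + 1), (f (n + 1) - f n) / n - f (N + 2) / ((N + 1 : ℕ) : ℝ)| ≤
      C * (2 - 1 / ((N + 1 : ℕ) : ℝ)) := by
  induction N with
  | zero =>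
    simp only [zero_add, Icc_self, sum_singleton, Nat.cast_one, div_one]
    have h := hf 1
    have e : f (1 + 1) - f 1 - f 2 = -f 1 := by norm_num
    rw [e, abs_neg]
    linarith
  | succ N ih =>
    rw [Finset.sum_Icc_succ_top (by omega)]
    have h := hf (N + 2)
    have p1 : (0 : ℝ) < ((N + 1 : ℕ) : ℝ) := by positivity
    have p2 : (0 : ℝ) < ((N + 1 + 1 : ℕ) : ℝ) := by positivity
    have e : ∑ n ∈ Icc 1 (N + 1), (f (n + 1) - f n) / n +
        (f (N + 1 + 1 + 1) - f (N + 1 + 1)) / ((N + 1 + 1 : ℕ) : ℝ) -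
        f (N + 1 + 2) / ((N + 1 + 1 : ℕ) : ℝ) =
        (∑ n ∈ Icc 1 (N + 1), (f (n + 1) - f n) / n - f (N + 2) / ((N + 1 : ℕ) : ℝ)) +
        f (N + 2) * (1 / ((N + 1 : ℕ) : ℝ) - 1 / ((N + 1 + 1 : ℕ) : ℝ)) := by
      rw [show N + 1 + 1 + 1 = N + 3 by ring, show N + 1 + 2 = N + 3 by ring,
        show N + 1 + 1 = N + 2 by ring]
      ring
    rw [e]
    have q : 0 ≤ 1 / ((N + 1 : ℕ) : ℝ) - 1 / ((N + 1 + 1 : ℕ) : ℝ) := by
      rw [sub_nonneg]
      refine one_div_le_one_div_of_le p1 ?_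
      push_cast; linarith
    calc |(∑ n ∈ Icc 1 (N + 1), (f (n + 1) - f n) / n - f (N + 2) / ((N + 1 : ℕ) : ℝ)) +
          f (N + 2) * (1 / ((N + 1 : ℕ) : ℝ) - 1 / ((N + 1 + 1 : ℕ) : ℝ))|
        ≤ |∑ n ∈ Icc 1 (N + 1), (f (n + 1) - f n) / n - f (N + 2) / ((N + 1 : ℕ) : ℝ)| +
          |f (N + 2) * (1 / ((N + 1 : ℕ) : ℝ) - 1 / ((N + 1 + 1 : ℕ) : ℝ))| := abs_add_le _ _
      _ ≤ C * (2 - 1 / ((N + 1 : ℕ) : ℝ)) +
          C * (1 / ((N + 1 : ℕ) : ℝ) - 1 / ((N + 1 + 1 : ℕ) : ℝ)) := by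
          refine add_le_add ih ?_
          rw [abs_mul, abs_of_nonneg q]
          exact mul_le_mul_of_nonneg_right h q
      _ = _ := by ring

theorem prs_lavg (f : ℕ → ℝ) (C : ℝ) (hf : ∀ n, |f n| ≤ C) :
    Tendsto (fun N => lavg N (fun n => f (n + 1)) - lavg N f) atTop (𝓝 0) := by
  have hC : 0 ≤ C := (abs_nonneg _).trans (hf 0)
  have h1 : Tendsto (fun N : ℕ => 3 * C / Real.log N) atTop (𝓝 0) :=
    tendsto_const_nhds.div_atTop (Real.tendsto_log_atTop.comp tendsto_natCast_atTop_atTop)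
  refine squeeze_zero_norm' ?_ h1
  filter_upwards [eventually_ge_atTop 2] with N hN
  obtain ⟨M, rfl⟩ : ∃ M, N = M + 1 := ⟨N - 1, by omega⟩
  have hlog : 0 < Real.log ((M + 1 : ℕ) : ℝ) := Real.log_pos (by exact_mod_cast hN)
  have e : lavg (M + 1) (fun n => f (n + 1)) - lavg (M + 1) f =
      (∑ n ∈ Icc 1 (M + 1), (f (n + 1) - f n) / n) / Real.log ((M + 1 : ℕ) : ℝ) := by
    unfold lavg
    rw [← sub_div, ← Finset.sum_sub_distrib]
    congr 1
    refine Finset.sum_congr rfl (fun n _ => ?_)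
    rw [sub_div]
  rw [e, norm_div, Real.norm_eq_abs, Real.norm_eq_abs, abs_of_pos hlog]
  refine div_le_div_of_nonneg_right ?_ hlog.le
  have h2 := prs_sum f C hf M
  have p1 : (1 : ℝ) ≤ ((M + 1 : ℕ) : ℝ) := by push_cast; linarith [Nat.cast_nonneg (α := ℝ) M]
  have h3 : |f (M + 2) / ((M + 1 : ℕ) : ℝ)| ≤ C := by
    rw [abs_div, abs_of_pos (show (0 : ℝ) < ((M + 1 : ℕ) : ℝ) by linarith)]
    exact (div_le_self (abs_nonneg _) p1).trans (hf _)
  have h4 : C * (2 - 1 / ((M + 1 : ℕ) : ℝ)) ≤ C * 2 := by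
    refine mul_le_mul_of_nonneg_left ?_ hC
    have : 0 ≤ 1 / ((M + 1 : ℕ) : ℝ) := by positivity
    linarith
  have h5 : ∑ n ∈ Icc 1 (M + 1), (f (n + 1) - f n) / n =
      (∑ n ∈ Icc 1 (M + 1), (f (n + 1) - f n) / n - f (M + 2) / ((M + 1 : ℕ) : ℝ)) +
        f (M + 2) / ((M + 1 : ℕ) : ℝ) := by ring
  rw [h5]
  refine (abs_add_le _ _).trans ?_
  linarith

theorem shift_cont : Continuous shift := continuous_pi (fun m => continuous_apply (m + 1))

theorem shift_pt (u : ℕ → I1) (n : ℕ) : shift (pt u n) = pt u (n + 1) := by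
  funext m
  unfold shift pt
  have e : ((n + 1 : ℕ) : ℤ) + m = (n : ℤ) + (m + 1) := by push_cast; ring
  rw [e]

theorem pf_RPRS : T_PRS := by
  intro u α hα hG
  refine ⟨shift_cont.measurable, ?_⟩
  have hp : IsProbabilityMeasure (α.map shift) :=
    Measure.isProbabilityMeasure_map shift_cont.measurable.aemeasurable
  refine ext_of_forall_integral_eq_of_IsFiniteMeasure fun f => ?_
  rw [integral_map shift_cont.measurable.aemeasurable
    f.continuous.stronglyMeasurable.aestronglyMeasurable]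
  set F : C(X, ℝ) := ⟨f, f.continuous⟩ with hF
  set G : C(X, ℝ) := ⟨fun x => f (shift x), f.continuous.comp shift_cont⟩ with hGd
  have h1 := hG F
  have h2 := hG G
  have h3 : (fun n => G (pt u n)) = fun n => F (pt u (n + 1)) := by
    funext n
    change f (shift (pt u n)) = f (pt u (n + 1))
    rw [shift_pt]
  rw [h3] at h2
  have h4 := prs_lavg (fun n => F (pt u n)) ‖f‖ (fun n => f.norm_coe_le_norm _)
  have h5 := h2.sub h1
  have h6 := tendsto_nhds_unique h5 h4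
  have h7 : ∫ x, G x ∂α = ∫ x, f (shift x) ∂α := rfl
  have h8 : ∫ x, F x ∂α = ∫ x, f x ∂α := rfl
  rw [h7, h8] at h6
  linarith

end Pool.Agent.H23.RR
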