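import Pool.Agent.H23.RR.RSTS

/-! Row RDIR of board rr_modules (MP_34b97f_an). -/

open MeasureTheory ProbabilityTheory Filter Topology Finset
open scoped ENNReal

namespace Pool.Agent.H23.RR

open Pool.Agent.H89.MT Pool.Agent.H92.RR

/-- the zero sequence -/
def zx : X := fun _ => z1

theorem mu_zero (b : I1) : mu z1 b = z1 := by
  apply Subtype.ext
  change (z1 : ℝ) * b = z1
  have : (z1 : ℝ) = 0 := rfl
  rw [this, zero_mul]

theorem star_dirac : Pool.Agent.H92.RR.star (Measure.dirac zx) = Measure.dirac zx := by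
  have hb : IsProbabilityMeasure bern := by unfold bern; infer_instance
  unfold Pool.Agent.H92.RR.star
  rw [Measure.dirac_prod, Measure.map_map star_meas (by exact measurable_prodMk_left)]
  have e : (fun z : X × X => (fun j => mu (z.1 j) (z.2 j) : X)) ∘ Prod.mk zx =
      fun _ => zx := by
    funext z
    funext j
    exact mu_zero (z j)
  rw [e, Measure.map_const, measure_univ, one_smul]

theorem erg_dirac : Ergodic shift (Measure.dirac zx) := by
  have hs : shift zx = zx := rfl
  refine ⟨⟨shift_meas, ?_⟩, ⟨?_⟩⟩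
  · rw [Measure.map_dirac' shift_meas, hs]
  · intro s hs _
    rw [eventuallyConst_set]
    by_cases h : zx ∈ s
    · left
      rw [ae_dirac_eq]
      exact h
    · right
      rw [ae_dirac_eq]
      exact h

theorem odo_dirac : IsOdometer shift (Measure.dirac zx) := by
  refine ⟨erg_dirac, ?_⟩
  intro F hF ε hε
  refine ⟨1, fun _ => F, fun _ => 1, ?_, ?_⟩
  · intro i
    refine ⟨hF, ⟨1, one_pos, one_pow 1⟩, ?_⟩
    have hs : shift zx = zx := rfl
    rw [Filter.EventuallyEq, ae_dirac_eq]
    change F (shift zx) = 1 * F zx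
    rw [hs, one_mul]
  · have e : (fun y => F y - ∑ _i : Fin 1, F y) = fun _ => (0 : ℂ) := by
      funext y
      simp
    rw [e]
    simp

theorem pf_RDIR : T_DIR := by
  refine ⟨Measure.dirac z1, Measure.dirac zx, Measure.dirac.isProbabilityMeasure,
    Measure.dirac.isProbabilityMeasure, odo_dirac, ?_⟩
  have hb : bsh (Measure.dirac z1) = Measure.dirac zx :=
    Measure.infinitePi_dirac (fun _ : ℤ => z1)
  change Iso shift (Pool.Agent.H92.RR.star (Measure.dirac zx)) _ _
  rw [star_dirac, hb, Measure.dirac_prod_dirac]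
  refine ⟨fun x => (x, x), fun z => z.2, measurable_id.prodMk measurable_id, measurable_snd,
    ?_, ?_, ?_, ?_, ?_⟩
  · exact Measure.map_dirac' (f := fun x : X => (x, x)) (measurable_id.prodMk measurable_id) zx
  · rw [Measure.map_dirac' measurable_snd]
  · exact Eventually.of_forall (fun y => rfl)
  · rw [ae_dirac_eq]
    exact (rfl : ((zx, zx) : X × X) = (zx, zx))
  · exact Eventually.of_forall (fun y => rfl)

end Pool.Agent.H23.RR
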