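import Pool.Agent.H23.RR.RPRS

/-! Row RNZD of board rr_modules (MP_34b97f_an). -/

open MeasureTheory ProbabilityTheory Filter Topology Finset
open scoped ENNReal

namespace Pool.Agent.H23.RR

open Pool.Agent.H89.MT Pool.Agent.H92.RR

theorem eq_dirac_of_ae {α : Measure X} [IsProbabilityMeasure α] (a : X) (h : ∀ᵐ x ∂α, x = a) :
    α = Measure.dirac a := by
  refine Measure.ext fun s hs => ?_
  rw [Measure.dirac_apply' _ hs]
  by_cases ha : a ∈ s
  · rw [Set.indicator_of_mem ha, Pi.one_apply]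
    have h1 : ∀ᵐ x ∂α, x ∈ s := by
      filter_upwards [h] with x hx
      rw [hx]; exact ha
    exact (prob_compl_eq_zero_iff hs).mp (mem_ae_iff.mp h1)
  · rw [Set.indicator_of_notMem ha]
    have h1 : ∀ᵐ x ∂α, x ∈ sᶜ := by
      filter_upwards [h] with x hx
      rw [hx]; exact ha
    have h2 : α (sᶜ)ᶜ = 0 := mem_ae_iff.mp h1
    rwa [compl_compl] at h2

theorem coord_meas (j : ℤ) : Measurable (fun x : X => |(x j : ℝ)|) :=
  (measurable_subtype_coe.comp (measurable_pi_apply j)).abs

theorem coord_step (α : Measure X) (h : MeasurePreserving shift α α) (j : ℤ) :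
    ∫ x : X, |(x (j + 1) : ℝ)| ∂α = ∫ x : X, |(x j : ℝ)| ∂α := by
  have h1 := integral_map (μ := α) h.measurable.aemeasurable
    (f := fun x : X => |(x j : ℝ)|) (coord_meas j).aestronglyMeasurable
  rw [h.map_eq] at h1
  exact h1.symm

theorem coord_all (α : Measure X) (h : MeasurePreserving shift α α) (j : ℤ) :
    ∫ x : X, |(x j : ℝ)| ∂α = ∫ x : X, |(x 0 : ℝ)| ∂α := by
  induction j using Int.induction_on with
  | zero => rfl
  | succ i ih => rw [coord_step α h]; exact ih
  | pred i ih =>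
    have h1 := coord_step α h (-(i : ℤ) - 1)
    rw [sub_add_cancel] at h1
    rw [← h1]; exact ih

theorem pf_RNZD : T_NZD := by
  intro u α hα hG hu hl
  have hT := pf_RPRS u α hα hG
  have hF : Continuous (fun x : X => |(x 0 : ℝ)|) :=
    (continuous_subtype_val.comp (continuous_apply 0)).abs
  have h1 := hG ⟨_, hF⟩
  have h2 : (fun N => lavg N fun n => (⟨_, hF⟩ : C(X, ℝ)) (pt u n)) =
      fun N => lavg N fun n => (u n : ℝ) := by
    funext N
    unfold lavg
    congr 1
    refine Finset.sum_congr rfl (fun n hn => ?_)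
    rw [mem_Icc] at hn
    congr 1
    change |(pt u n 0 : ℝ)| = _
    have h3 : pt u n 0 = u n := by
      unfold pt
      rw [add_zero, if_pos (by exact_mod_cast hn.1)]
      simp
    rw [h3, abs_of_nonneg (hu n)]
  rw [h2] at h1
  have h0 : ∫ x : X, |(x 0 : ℝ)| ∂α = 0 := tendsto_nhds_unique h1 hl
  have hz : ∀ j : ℤ, ∀ᵐ x ∂α, x j = z1 := by
    intro j
    have h4 := coord_all α hT j
    rw [h0] at h4
    have hi : Integrable (fun x : X => |(x j : ℝ)|) α := by
      refine Integrable.mono' (integrable_const (1 : ℝ)) (coord_meas j).aestronglyMeasurable ?_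
      filter_upwards with x
      rw [Real.norm_eq_abs, abs_abs]
      exact abs_le.2 ⟨(x j).2.1, (x j).2.2⟩
    have h5 := (integral_eq_zero_iff_of_nonneg (fun x => abs_nonneg _) hi).mp h4
    filter_upwards [h5] with x hx
    apply Subtype.ext
    have hx' : |(x j : ℝ)| = 0 := hx
    rw [abs_eq_zero] at hx'
    exact hx'
  refine eq_dirac_of_ae _ ?_
  have h6 : ∀ᵐ x ∂α, ∀ j : ℤ, x j = z1 := ae_all_iff.mpr hz
  filter_upwards [h6] with x hx
  funext j
  exact hx j

end Pool.Agent.H23.RR
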