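import Pool.Agent.H92.RR.Targets

/-! Row RSTS of board rr_modules (MP_34b97f_an). -/

open MeasureTheory ProbabilityTheory Filter Topology Finset
open scoped ENNReal

namespace Pool.Agent.H23.RR

open Pool.Agent.H89.MT Pool.Agent.H92.RR

theorem shift_meas : Measurable shift := measurable_pi_iff.mpr (fun m => measurable_pi_apply (m + 1))

theorem bern_shift : bern.map shift = bern := by
  have h := Measure.infinitePi_map_piCongrLeft (X := fun _ : ℤ => I1) (fun _ : ℤ => fair)
    (Equiv.subRight (1 : ℤ))
  have e : ⇑(MeasurableEquiv.piCongrLeft (fun _ : ℤ => I1) (Equiv.subRight (1 : ℤ))) = shift := by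
    funext x m
    rw [MeasurableEquiv.coe_piCongrLeft]
    have h1 := Equiv.piCongrLeft_apply_apply (P := fun _ : ℤ => I1) (Equiv.subRight (1 : ℤ)) x
      (m + 1)
    have h2 : Equiv.subRight (1 : ℤ) (m + 1) = m := by simp
    rw [h2] at h1
    exact h1
  rw [e] at h
  exact h

theorem mu_meas : Measurable (fun z : I1 × I1 => mu z.1 z.2) := by
  refine Measurable.subtype_mk ?_
  exact (measurable_subtype_coe.comp measurable_fst).mul (measurable_subtype_coe.comp measurable_snd)

theorem star_meas : Measurable (fun z : X × X => (fun j => mu (z.1 j) (z.2 j) : X)) := by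
  refine measurable_pi_iff.mpr (fun j => ?_)
  have h1 : Measurable (fun z : X × X => z.1 j) := (measurable_pi_apply j).comp measurable_fst
  have h2 : Measurable (fun z : X × X => z.2 j) := (measurable_pi_apply j).comp measurable_snd
  exact mu_meas.comp (h1.prodMk h2)

theorem pf_RSTS : T_STS := by
  intro α hα hT
  have hb : MeasurePreserving shift bern bern := ⟨shift_meas, bern_shift⟩
  have hb' : IsProbabilityMeasure bern := by unfold bern; infer_instance
  have hp : MeasurePreserving (Prod.map shift shift) (α.prod bern) (α.prod bern) := hT.prod hb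
  refine ⟨shift_meas, ?_⟩
  unfold Pool.Agent.H92.RR.star
  rw [Measure.map_map shift_meas star_meas]
  have e : shift ∘ (fun z : X × X => (fun j => mu (z.1 j) (z.2 j) : X)) =
      (fun z : X × X => (fun j => mu (z.1 j) (z.2 j) : X)) ∘ Prod.map shift shift := by
    funext z
    rfl
  rw [e, ← Measure.map_map star_meas (shift_meas.prodMap shift_meas), hp.map_eq]

end Pool.Agent.H23.RR
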